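import Pool.Agent.NH20.BU.Main

/-!
# The index of the entries has few prime factors, for every prime `p`
-/

set_option autoImplicit false

namespace Pool.Agent.NH20.BU

open Finset Filter Pool.Agent.NPC Pool.Agent.H595R2.PR Pool.Agent.R562.PR Pool.Agent.NPC.NH20POL
open Pool.Agent.NH20.BT

/-- the exceptional orders -/
def Bad (K : ℕ) (η : ℝ) (p l : ℕ) : Prop :=
  l ≤ K ∧ ¬ (l = 2 ∧ p % 8 ≠ 1) ∧
    ∀ i : ℕ, 1 ≤ i → (i : ℝ) ≤ (p : ℝ) ^ η → (i : ZMod p) ^ ((p - 1) / l) = 1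

/-- all prime factors of the index of `g` are exceptional -/
def Almost (K : ℕ) (η : ℝ) (p g : ℕ) : Prop :=
  (g : ZMod p) ≠ 0 ∧ ∀ l : ℕ, l.Prime → l ∣ (p - 1) / orderOf (g : ZMod p) → Bad K η p l

theorem exists_K (θ η : ℝ) (hθ0 : 0 < θ) (hθ1 : θ < 1) (hη : η < θ) :
    ∃ (K : ℕ) (κ : ℝ), 0 < κ ∧ η < κ ∧ κ < θ ∧
      (∀ L : ℕ, 2 ≤ L → 1 / (4 * Real.exp (1 - 1 / L)) < θ → K < L) ∧
      ∃ p₀ : ℕ, ∀ p : ℕ, p₀ ≤ p → p.Prime → ∀ l : ℕ, l.Prime → l ∣ p - 1 → K < l →
        ∃ j : ℕ, 1 ≤ j ∧ (j : ℝ) ≤ (p : ℝ) ^ κ ∧ isRes p l j = false := by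
  classical
  by_cases h : ∃ L : ℕ, 2 ≤ L ∧ 1 / (4 * Real.exp (1 - 1 / L)) < θ
  · set L₀ := Nat.find h with hL₀
    obtain ⟨h2, hlt⟩ := Nat.find_spec h
    rw [← hL₀] at h2 hlt
    have hc0 : (0 : ℝ) < 1 / (4 * Real.exp (1 - 1 / L₀)) := by positivity
    obtain ⟨κ, hκ1, hκθ⟩ := exists_between (max_lt hlt hη)
    have hκL : 1 / (4 * Real.exp (1 - 1 / L₀)) < κ := lt_of_le_of_lt (le_max_left _ _) hκ1
    have hκη : η < κ := lt_of_le_of_lt (le_max_right _ _) hκ1
    obtain ⟨p₀, hp₀⟩ := nonres_l L₀ h2 κ hκL (hκθ.trans hθ1)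
    refine ⟨L₀ - 1, κ, hc0.trans hκL, hκη, hκθ, fun L hL1 hL2 => ?_, p₀,
      fun p hp hpp l hl hd hKl => hp₀ p hp hpp l hl hd (by omega)⟩
    have := Nat.find_min' h ⟨hL1, hL2⟩
    omega
  · obtain ⟨κ, hκ1, hκθ⟩ := exists_between (max_lt hθ0 hη)
    have hκ0 : 0 < κ := lt_of_le_of_lt (le_max_left _ _) hκ1
    have hκη : η < κ := lt_of_le_of_lt (le_max_right _ _) hκ1
    obtain ⟨K, p₀, hK⟩ := large_l κ hκ0 (hκθ.trans hθ1).le
    exact ⟨K, κ, hκ0, hκη, hκθ, fun L hL1 hL2 => absurd ⟨L, hL1, hL2⟩ h, p₀, hK⟩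

/-- the entries which generate the group of the list -/
theorem almost_of_generates {p Y K g : ℕ} [Fact p.Prime] {s : List ℕ} (ε η : ℝ)
    (hG : (p : ℝ) ^ (1 - ε) ≤ Nat.card (Gam p Y))
    (h : ∀ l : ℕ, l.Prime → l ∣ p - 1 → (l : ℝ) < (p : ℝ) ^ ε → ¬ Bad K η p l →
      HasNonresidue p l s)
    (hg : Generates p (listGroup p (withSmall Y s)) g) : Almost K η p g := by
  set Γ := listGroup p (withSmall Y s) with hΓ
  obtain ⟨u, hu1, hu2⟩ := hg
  refine ⟨by rw [← hu1]; exact u.ne_zero, fun l hl hd => ?_⟩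
  have hcard : (p : ℝ) ^ (1 - ε) ≤ Nat.card Γ := by
    refine hG.trans ?_
    have := Subgroup.card_le_of_le (Gam_le p Y s)
    exact_mod_cast this
  have hord : orderOf (g : ZMod p) = Nat.card Γ := by
    rw [← hu1, orderOf_units, ← hu2, Nat.card_zpowers]
  have hidx : (p - 1) / orderOf (g : ZMod p) = Γ.index := by
    have h1 := Γ.card_mul_index
    rw [Nat.card_eq_fintype_card (α := (ZMod p)ˣ), ZMod.card_units] at h1
    rw [hord, ← h1, Nat.mul_div_cancel_left _ Nat.card_pos]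
  rw [hidx] at hd
  have h1 := Pool.Agent.TH668.PR.dvd_index_lt Γ ε hcard hd
  have h2 := Pool.Agent.TH668.PR.dvd_sub_one Γ hd
  by_contra hbad
  exact not_dvd_of_has Γ (list_le p Y s) hl.pos (h l hl h2 h1 hbad) hd

/-- without exceptional orders the entries are primitive roots -/
theorem prim_of_almost {p K g : ℕ} (hp : p.Prime) (η : ℝ) (h : Almost K η p g)
    (hno : ∀ l : ℕ, l.Prime → l ∣ p - 1 → ¬ Bad K η p l) : IsPrimRoot p g := by
  have : Fact p.Prime := ⟨hp⟩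
  have hd : orderOf (g : ZMod p) ∣ p - 1 :=
    orderOf_dvd_of_pow_eq_one (ZMod.pow_card_sub_one_eq_one h.1)
  have hp1 : 0 < p - 1 := by have := hp.one_lt; omega
  obtain ⟨m, hm⟩ := hd
  have ho : 0 < orderOf (g : ZMod p) := by
    rcases Nat.eq_zero_or_pos (orderOf (g : ZMod p)) with h0 | h0
    · rw [h0, zero_mul] at hm; omega
    · exact h0
  have hm2 : (p - 1) / orderOf (g : ZMod p) = m := by
    rw [hm, Nat.mul_div_cancel_left _ ho]
  unfold IsPrimRoot
  by_cases h1 : m = 1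
  · rw [hm, h1, mul_one]
  · obtain ⟨l, hl, hlm⟩ := Nat.exists_prime_and_dvd h1
    exact absurd (h.2 l hl (by rw [hm2]; exact hlm))
      (hno l hl (by rw [hm]; exact hlm.mul_left _))

open Classical in
/-- **Main theorem.** -/
theorem main_ind (θ η : ℝ) (hθ0 : 0 < θ) (hθ1 : θ < 1) (hη : η < θ) (B : ℕ) :
    ∃ (K C : ℕ) (F : ℕ → List ℕ),
    (∀ L : ℕ, 2 ≤ L → 1 / (4 * Real.exp (1 - 1 / L)) < θ → K < L) ∧
    ComputedIn (fun p => (p : ℝ) ^ θ) F ∧ (∀ p : ℕ, (F p).length = p.size ^ C) ∧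
    ∃ p₀ : ℕ, ∀ p : ℕ, p₀ ≤ p → p.Prime →
      p.size ^ B * #{i ∈ range (F p).length | ¬ Almost K η p ((F p).getD i 0)} ≤
        (F p).length := by
  -- parameters
  obtain ⟨L₁, κ, hκ0, hκη, hκθ, hKL, p₄, hK1⟩ := exists_K θ η hθ0 hθ1 hη
  obtain ⟨r, hr1, hr2⟩ := exists_rat_btwn hκθ
  have hr0 : (0 : ℚ) < r := by
    have : (0 : ℝ) < r := hκ0.trans hr1
    exact_mod_cast this
  obtain ⟨a, b, hb1, ha1, hab⟩ : ∃ a b : ℕ, 1 ≤ b ∧ 1 ≤ a ∧ (r : ℝ) = (a : ℝ) / b := by
    refine ⟨r.num.toNat, r.den, r.den_pos, ?_, ?_⟩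
    · have := Rat.num_pos.2 hr0
      omega
    · have h1 : ((r.num.toNat : ℕ) : ℤ) = r.num := Int.toNat_of_nonneg (Rat.num_pos.2 hr0).le
      have h2 : (r : ℝ) = ((r.num : ℤ) : ℝ) / (r.den : ℝ) := by
        rw [← Rat.cast_intCast, ← Rat.cast_natCast, ← Rat.cast_div, Rat.num_div_den]
      have h3 : ((r.num.toNat : ℕ) : ℝ) = ((r.num : ℤ) : ℝ) := by
        calc ((r.num.toNat : ℕ) : ℝ) = (((r.num.toNat : ℕ) : ℤ) : ℝ) := (Int.cast_natCast _).symm
          _ = ((r.num : ℤ) : ℝ) := by rw [h1]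
      rw [h2, h3]
  rw [hab] at hr1 hr2
  have hb0 : (0 : ℝ) < b := by exact_mod_cast hb1
  have ha1' : (1 : ℝ) ≤ a := by exact_mod_cast ha1
  set E : ℕ := b + 1 with hE
  have hE0 : (0 : ℝ) < E := by rw [hE]; positivity
  have hEr : 1 / (E : ℝ) < (a : ℝ) / b := by
    have h1 : 1 / (E : ℝ) < 1 / b := by
      apply one_div_lt_one_div_of_lt hb0
      rw [hE]; push_cast; linarith
    have h2 : 1 / (b : ℝ) ≤ (a : ℝ) / b := by gcongr
    linarith
  have hr0' : (0 : ℝ) < (a : ℝ) / b := by positivity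
  have hr1' : (a : ℝ) / b < 1 := hr2.trans hθ1
  obtain ⟨A₂, hA₂⟩ := Gam_large (1 / E) (by positivity)
  obtain ⟨p₂, hp₂⟩ := hA₂ A₂ le_rfl
  set C := 2 + A₂ + B + 2 with hC
  -- eventual inequalities
  have hev : ∀ᶠ x : ℝ in atTop, x ^ ((a : ℝ) / b) + 2 ≤ x ^ θ ∧ x ^ ((a : ℝ) / b) + 2 ≤ x ∧
      (x ^ (1 / E : ℝ) + 1) + (2 + 2 * Real.log x) + (x ^ κ + 1) ≤ x ^ ((a : ℝ) / b) ∧
      1 ≤ x ^ κ ∧ x ^ η ≤ x ^ κ := by
    have g1 := BT.ev_pow ((a : ℝ) / b) θ (1 / 2) hr2 (by norm_num)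
    have g2 := BT.ev_pow ((a : ℝ) / b) 1 (1 / 2) hr1' (by norm_num)
    have g3 := BT.ev_pow (1 / E) ((a : ℝ) / b) (1 / 16) hEr (by norm_num)
    have g3' := BT.ev_pow κ ((a : ℝ) / b) (1 / 16) hr1 (by norm_num)
    have g4 := (isLittleO_log_rpow_atTop hr0').bound (show (0 : ℝ) < 1 / 16 by norm_num)
    filter_upwards [g1, g2, g3, g3', g4,
      (tendsto_rpow_atTop hθ0).eventually_ge_atTop 4,
      (tendsto_rpow_atTop hr0').eventually_ge_atTop 16,
      eventually_ge_atTop 4] with x g1 g2 g3 g3' g4 g5 g6 g7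
    have hx0 : 0 < x := lt_of_lt_of_le (by norm_num) g7
    have hx1 : 1 ≤ x := le_trans (by norm_num) g7
    rw [Real.rpow_one] at g2
    rw [Real.norm_of_nonneg (Real.log_nonneg hx1),
      Real.norm_of_nonneg (by positivity)] at g4
    refine ⟨by linarith, by linarith, by linarith, Real.one_le_rpow hx1 hκ0.le,
      Real.rpow_le_rpow_of_exponent_le hx1 hκη.le⟩
  have tc : Tendsto (fun q : ℕ => (q : ℝ)) atTop atTop := tendsto_natCast_atTop_atTop
  obtain ⟨p₃, hp₃⟩ := eventually_atTop.1 (tc.eventually hev)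
  -- the stopping time of the clock
  have hclock : ∀ p : ℕ, ∃ T : ℕ, (∀ c, c < T → c ^ b ≤ p ^ a) ∧ p ^ a < T ^ b := by
    intro p
    have hex : ∃ T : ℕ, p ^ a < T ^ b := ⟨p ^ a + 1, by
      have : p ^ a + 1 ≤ (p ^ a + 1) ^ b := Nat.le_self_pow (by omega) _
      omega⟩
    refine ⟨Nat.find hex, fun c hc => ?_, Nat.find_spec hex⟩
    have := Nat.find_min hex hc
    omega
  choose T hT1 hT2 using hclock
  have hTpos : ∀ p, 1 ≤ T p := by
    intro p
    by_contra hcon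
    have h0 : T p = 0 := by omega
    have h1 := hT2 p
    rw [h0, zero_pow (by omega)] at h1
    omega
  have hTle : ∀ p : ℕ, (T p : ℝ) ≤ (p : ℝ) ^ ((a : ℝ) / b) + 1 := by
    intro p
    have h1 := root_le' hb1 (hT1 p (T p - 1) (by have := hTpos p; omega))
    rw [Nat.cast_sub (hTpos p), Nat.cast_one] at h1
    linarith
  have hTge : ∀ p : ℕ, (p : ℝ) ^ ((a : ℝ) / b) < T p := fun p => root_lt' hb1 (hT2 p)
  set F : ℕ → List ℕ := fun p => fin' A₂ C ((stp E)^[T p] (ini p)) with hF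
  refine ⟨L₁, C, F, hKL, ?_, fun p => ?_, max (max (max p₂ p₃) p₄) 3, ?_⟩
  · -- the computation
    refine ⟨cini, crnd E a b, cout' A₂ C, polyTime_cini, polyTime_crnd E a b,
      polyTime_cout' A₂ C, 10, max p₃ 3, fun p hp hpp => ⟨fun t => ?_, T p, ?_, ?_, ?_⟩⟩
    · have : Fact p.Prime := ⟨hpp⟩
      have hsz2 := two_le_size hpp
      have hinvs := fun t => (run' (E := E) hpp ((le_max_right _ _).trans hp) t).1
      have hY : p - 1 < p := by have := hpp.pos; omega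
      obtain ⟨f1, f2, f3, f4, f5⟩ := hp₃ p ((le_max_left _ _).trans hp)
      have hTp : T p ≤ p := by
        have : (T p : ℝ) ≤ p := by linarith [hTle p]
        exact_mod_cast this
      have key : ∀ (c u : ℕ), c ≤ p →
          (bits ((c, (stp E)^[u] (ini p)) : ℕ × St)).length ≤ p.size ^ 10 := by
        intro c u hc
        have h1 := state_size hpp.two_le (by omega) (hinvs u) hY
        rw [bits_length] at h1 ⊢
        rw [NPC.sz_pair]
        have h2 := sz_nat_bound hc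
        calc sz c + sz ((stp E)^[u] (ini p)) + 1 ≤ (4 * p.size + 1) + 100 * p.size ^ 2 + 1 := by
              omega
          _ ≤ 2 ^ 8 * p.size ^ 2 := by nlinarith
          _ ≤ p.size ^ 8 * p.size ^ 2 := Nat.mul_le_mul_right _ (Nat.pow_le_pow_left hsz2 _)
          _ = p.size ^ 10 := by ring
      rw [citer]
      rcases le_total t (T p) with ht | ht
      · rw [clk_iter (hT1 p) t ht]
        exact key t t (ht.trans hTp)
      · rw [clk_after (hT1 p) (hT2 p) t ht]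
        exact key _ _ hTp
    · obtain ⟨f1, f2, f3, f4, f5⟩ := hp₃ p ((le_max_left _ _).trans hp)
      have := hTle p
      show (T p : ℝ) ≤ (p : ℝ) ^ θ
      linarith
    · rw [← Function.iterate_succ_apply' (crnd E a b), citer, citer,
        clk_after (hT1 p) (hT2 p) (T p + 1) (by omega), clk_after (hT1 p) (hT2 p) (T p) le_rfl]
    · rw [citer, clk_after (hT1 p) (hT2 p) (T p) le_rfl]
      unfold cout'
      rw [unbits_bits]
      rfl
  · show (candsS _ _ _).length = _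
    rw [length_candsS, iter_fst]
  · intro p hp0 hpp
    have : Fact p.Prime := ⟨hpp⟩
    have hp4 : p₄ ≤ p := le_trans (le_trans (le_max_right _ _) (le_max_left _ _)) hp0
    have hp23 : max p₂ p₃ ≤ p := le_trans (le_trans (le_max_left _ _) (le_max_left _ _)) hp0
    have hp2 : p₂ ≤ p := le_trans (le_max_left _ _) hp23
    have hp3 : p₃ ≤ p := le_trans (le_max_right _ _) hp23
    have hp33 : 3 ≤ p := (le_max_right _ _).trans hp0
    have hpos : (0 : ℝ) < p := by exact_mod_cast hpp.pos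
    obtain ⟨f1, f2, f3, f4, f5⟩ := hp₃ p hp3
    set K : ℕ := ⌊(p : ℝ) ^ (1 / E : ℝ)⌋₊ with hK
    have hKle : (K : ℝ) ≤ (p : ℝ) ^ (1 / E : ℝ) := Nat.floor_le (by positivity)
    set Y : ℕ := ⌊(p : ℝ) ^ κ⌋₊ with hY
    have hYle : (Y : ℝ) ≤ (p : ℝ) ^ κ := Nat.floor_le (by positivity)
    have hY1 : 1 ≤ Y := Nat.le_floor (by exact_mod_cast f4)
    have hKb : ∀ k : ℕ, (k - 1) ^ E ≤ p → k ≤ K + 1 := by
      intro k hk
      have h1 := root_le (by omega) hk
      have h3 := Nat.le_floor h1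
      omega
    have hsz2 := two_le_size hpp
    have hTbig : K + 1 + p.size + Y ≤ T p + 1 := by
      have h3 := size_le_log hpp.one_lt.le
      have h4 : ((K + 1 + p.size + Y : ℕ) : ℝ) ≤ ((T p + 1 : ℕ) : ℝ) := by
        push_cast
        have := (hTge p).le
        linarith
      exact_mod_cast h4
    have hx := (run' (E := E) hpp hp33 (T p)).1
    set st := (stp E)^[T p] (ini p) with hst
    have hst1 : st.1 = p := hx.hp
    have e : F p = candsS C p (withSmall (p.size ^ A₂) ((p - 1) :: 2 :: st.2.2.2.2.2)) := by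
      show fin' A₂ C ((stp E)^[T p] (ini p)) = _
      unfold fin'
      rw [← hst, hst1]
    have hnon : ∀ l : ℕ, l.Prime → l ∣ p - 1 → (l : ℝ) < (p : ℝ) ^ (1 / E : ℝ) →
        ¬ Bad L₁ η p l → HasNonresidue p l ((p - 1) :: 2 :: st.2.2.2.2.2) := by
      intro l hl hd hlp hnb
      by_cases hl2 : l = 2 ∧ p % 8 ≠ 1
      · rw [hl2.1]
        exact two_has hp33 hl2.2 _
      obtain ⟨j, hj1, hj2, hj3⟩ : ∃ j : ℕ, 1 ≤ j ∧ (j : ℝ) ≤ (p : ℝ) ^ κ ∧
          isRes p l j = false := by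
        rcases lt_or_ge L₁ l with hlK | hlK
        · exact hK1 p hp4 hpp l hl hd hlK
        · have hex : ∃ i : ℕ, 1 ≤ i ∧ (i : ℝ) ≤ (p : ℝ) ^ η ∧
              (i : ZMod p) ^ ((p - 1) / l) ≠ 1 := by
            by_contra hcon
            push Not at hcon
            exact hnb ⟨hlK, hl2, hcon⟩
          obtain ⟨i, hi1, hi2, hi3⟩ := hex
          · refine ⟨i, hi1, hi2.trans f5, ?_⟩
            by_contra hcon
            apply hi3
            have h2 : isRes p l i = true := by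
              cases h : isRes p l i
              · exact absurd h hcon
              · rfl
            unfold isRes at h2
            rw [decide_eq_true_iff, pw_eq] at h2
            have h4 : ((i ^ ((p - 1) / l) : ℕ) : ZMod p) = ((1 : ℕ) : ZMod p) := by
              rw [ZMod.natCast_eq_natCast_iff]
              have hmax : max p 1 = p := max_eq_left hpp.one_lt.le
              unfold md at h2
              rw [hmax] at h2
              exact h2
            push_cast at h4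
            exact h4
      have hlE : l ^ E ≤ p := by
        have h1 : (l : ℝ) ^ E ≤ p := by
          calc (l : ℝ) ^ E ≤ ((p : ℝ) ^ (1 / E : ℝ)) ^ E :=
                pow_le_pow_left₀ (Nat.cast_nonneg _) hlp.le E
            _ = p := by
                rw [← Real.rpow_natCast, ← Real.rpow_mul hpos.le, one_div_mul_cancel hE0.ne',
                  Real.rpow_one]
        exact_mod_cast h1
      obtain ⟨x, hx1, hx2, hx3⟩ := clock_has (t := T p) hpp hp33 hKb hTbig hY1 hl hd hlE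
        ⟨j, hj1, Nat.le_floor hj2, hj3⟩
      exact ⟨x, by rw [← hst] at hx1; simp [hx1], hx2, hx3⟩
    have halm := fun g => almost_of_generates (g := g) (Y := p.size ^ A₂) (1 / E) η
      (hp₂ p hp2 hpp) hnon
    have hlen : (candsS C p (withSmall (p.size ^ A₂)
        ((p - 1) :: 2 :: st.2.2.2.2.2))).length = p.size ^ C := length_candsS _ _ _
    rw [e]
    simp only [hlen]
    have h1 := coreS C p hpp (withSmall (p.size ^ A₂) ((p - 1) :: 2 :: st.2.2.2.2.2))
    rw [length_withSmall] at h1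
    have hSlen : ((p - 1) :: 2 :: st.2.2.2.2.2).length ≤ p.size ^ 2 := by
      have h2 := hx.hlen
      have h3 := length_le_of_prod (fun l hl => (hx.hprime l hl).1) _ hx.hR hx.hprod
        hpp.one_lt.le
      rw [List.length_cons, List.length_cons]
      nlinarith
    have h2 := fits (n := p.size) (A := 2) (A' := A₂) (B := B)
      (L := ((p - 1) :: 2 :: st.2.2.2.2.2).length + p.size ^ A₂) hsz2
      (Nat.add_le_add_right hSlen _) h1
    refine le_trans (Nat.mul_le_mul_left _ (card_le_card ?_)) h2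
    intro i hi
    rw [mem_filter] at hi ⊢
    refine ⟨hi.1, fun hg => hi.2 ?_⟩
    rw [genS_iff] at hg
    exact halm _ hg

end Pool.Agent.NH20.BU
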