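import Pool.Agent.NH20.BT.Clk
import Pool.Agent.Y165.HN.Burg

/-!
# Burgess' and Vinogradov's bound for `l`-th power nonresidues, with the constant depending on `l`
-/

set_option autoImplicit false

namespace Pool.Agent.NH20.BU

open Finset Pool.Agent.H471R4.BW Pool.Agent.NH20.BT Pool.Agent.H595R2.PR Pool.Agent.R562.PR

/-- sum of the nontrivial powers of an `l`-th root of unity -/
theorem sum_root {l : ℕ} (hl : 1 ≤ l) (z : ℂ) (hz : z ^ l = 1) :
    -1 ≤ ∑ j ∈ Ico 1 l, (z ^ j).re := by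
  have e : ∑ j ∈ range l, z ^ j = 1 + ∑ j ∈ Ico 1 l, z ^ j := by
    rw [range_eq_Ico, sum_eq_sum_Ico_succ_bot (by omega)]
    simp
  have e2 : (∑ j ∈ Ico 1 l, (z ^ j).re) = (∑ j ∈ Ico 1 l, z ^ j).re := by
    rw [Complex.re_sum]
  rw [e2]
  by_cases h1 : z = 1
  · subst h1
    simp
    have : (0 : ℝ) ≤ ((l - 1 : ℕ) : ℝ) := Nat.cast_nonneg _
    linarith
  · have h2 : (∑ j ∈ range l, z ^ j) * (z - 1) = 0 := by
      rw [geom_sum_mul, hz, sub_self]
    rcases mul_eq_zero.1 h2 with h | h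
    · rw [e] at h
      have : ∑ j ∈ Ico 1 l, z ^ j = -1 := by linear_combination h
      rw [this]
      simp
    · exact absurd (sub_eq_zero.1 h) h1

theorem vin_l {p l : ℕ} [Fact p.Prime] (hl : 1 ≤ l) (χ : DirichletCharacter ℂ p)
    (hχl : χ ^ l = 1) (y X : ℕ) (hXp : X < p)
    (hy : ∀ q : ℕ, q.Prime → q ≤ y → χ (q : ZMod p) = 1) :
    (X : ℝ) * ((l : ℝ) - 1 - l * badSum p χ y X) ≤ ∑ j ∈ Ico 1 l, ‖shortSum p (χ ^ j) X‖ := by
  classical
  set L := (Ioc y X).filter (fun l : ℕ => l.Prime ∧ χ (l : ZMod p) ≠ 1) with hL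
  have hval : ∀ m ∈ Icc 1 X, ∀ j : ℕ, (χ ^ j) (m : ZMod p) = (χ (m : ZMod p)) ^ j := by
    intro m hm j
    have hm1 := (mem_Icc.1 hm).1
    have hm2 := (mem_Icc.1 hm).2
    have hu : IsUnit (m : ZMod p) := by
      rw [isUnit_iff_ne_zero]
      intro h
      rw [ZMod.natCast_eq_zero_iff] at h
      have := Nat.le_of_dvd (by omega) h
      omega
    obtain ⟨u, hu⟩ := hu
    rw [← hu, MulChar.pow_apply_coe]
  have hpt : ∀ m ∈ Icc 1 X, (l : ℝ) - 1 - l * ((L.filter fun q => q ∣ m).card : ℝ) ≤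
      ∑ j ∈ Ico 1 l, ((χ ^ j) (m : ZMod p)).re := by
    intro m hm
    have hm1 := (mem_Icc.1 hm).1
    have hm2 := (mem_Icc.1 hm).2
    have e : ∑ j ∈ Ico 1 l, ((χ ^ j) (m : ZMod p)).re =
        ∑ j ∈ Ico 1 l, ((χ (m : ZMod p)) ^ j).re :=
      sum_congr rfl fun j _ => by rw [hval m hm j]
    rw [e]
    by_cases hall : ∀ q : ℕ, q.Prime → q ∣ m → χ (q : ZMod p) = 1
    · rw [vin_one p χ m (by omega) hall]
      have : (0 : ℝ) ≤ l * ((L.filter fun q => q ∣ m).card : ℝ) := by positivity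
      simp only [one_pow, Complex.one_re, sum_const, Nat.card_Ico, nsmul_eq_mul, mul_one]
      rw [Nat.cast_sub hl, Nat.cast_one]
      linarith
    · push Not at hall
      obtain ⟨q, hq, hd, hne⟩ := hall
      have hlm : q ∈ L.filter fun q => q ∣ m := by
        rw [mem_filter, hL, mem_filter, mem_Ioc]
        refine ⟨⟨⟨?_, ?_⟩, hq, hne⟩, hd⟩
        · by_contra hc
          exact hne (hy q hq (by omega))
        · exact (Nat.le_of_dvd (by omega) hd).trans hm2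
      have hc : (1 : ℝ) ≤ ((L.filter fun q => q ∣ m).card : ℝ) := by
        exact_mod_cast Finset.card_pos.2 ⟨q, hlm⟩
      have hz : (χ (m : ZMod p)) ^ l = 1 := by
        rw [← hval m hm l, hχl]
        apply MulChar.one_apply
        rw [isUnit_iff_ne_zero]
        intro h
        rw [ZMod.natCast_eq_zero_iff] at h
        have := Nat.le_of_dvd (by omega) h
        omega
      have h3 := sum_root hl _ hz
      have h4 : (1 : ℝ) ≤ l := by exact_mod_cast hl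
      nlinarith
  have hsum : (∑ m ∈ Icc 1 X, ((l : ℝ) - 1 - l * ((L.filter fun q => q ∣ m).card : ℝ))) ≤
      ∑ j ∈ Ico 1 l, (shortSum p (χ ^ j) X).re := by
    unfold shortSum
    simp only [Complex.re_sum]
    rw [sum_comm]
    exact sum_le_sum hpt
  have hcount : (∑ m ∈ Icc 1 X, ((L.filter fun l => l ∣ m).card : ℝ)) ≤ X * badSum p χ y X := by
    have e1 : (∑ m ∈ Icc 1 X, ((L.filter fun l => l ∣ m).card : ℝ)) =
        ∑ l ∈ L, (((Icc 1 X).filter fun m => l ∣ m).card : ℝ) := by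
      simp only [Finset.card_filter, Nat.cast_sum]
      rw [sum_comm]
    rw [e1]
    unfold badSum
    rw [mul_sum]
    refine le_of_le_of_eq (sum_le_sum (s := L) fun l hl => ?_) (by
      refine sum_congr ?_ fun _ _ => rfl
      rw [hL])
    have hcard : ((Icc 1 X).filter fun m => l ∣ m).card = X / l := by
      have h := Nat.Ioc_filter_dvd_card_eq_div X l
      rw [← h]
      congr 1
    rw [hcard]
    have := @Nat.cast_div_le ℝ _ _ _ X l
    calc ((X / l : ℕ) : ℝ) ≤ (X : ℝ) / l := this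
      _ = X * (1 / (l : ℝ)) := by ring
  have htot : (∑ m ∈ Icc 1 X, ((l : ℝ) - 1 - l * ((L.filter fun q => q ∣ m).card : ℝ))) =
      X * ((l : ℝ) - 1) - l * ∑ m ∈ Icc 1 X, ((L.filter fun l => l ∣ m).card : ℝ) := by
    rw [sum_sub_distrib, ← mul_sum]
    simp
    ring
  have hre : ∑ j ∈ Ico 1 l, (shortSum p (χ ^ j) X).re ≤ ∑ j ∈ Ico 1 l, ‖shortSum p (χ ^ j) X‖ :=
    sum_le_sum fun j _ => Complex.re_le_norm _
  have hl0 : (0 : ℝ) ≤ l := Nat.cast_nonneg _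
  have h5 := mul_le_mul_of_nonneg_left hcount hl0
  calc (X : ℝ) * ((l : ℝ) - 1 - l * badSum p χ y X) =
      X * ((l : ℝ) - 1) - l * (X * badSum p χ y X) := by ring
    _ ≤ X * ((l : ℝ) - 1) - l * ∑ m ∈ Icc 1 X, ((L.filter fun l => l ∣ m).card : ℝ) := by linarith
    _ ≤ _ := by rw [← htot]; exact hsum.trans hre

theorem bfm_all : BFM := bfm (bin (mom tup) nu1 nu2b shf hol)

/-- the primes at which a character of order `l` is not one -/
theorem bge_l (L : ℕ) (hL : 2 ≤ L) (η δ : ℝ) (hη : 0 < η) (hδ : 0 < δ) :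
    ∃ N0 : ℕ, ∀ p : ℕ, N0 ≤ p → p.Prime → ∀ l : ℕ, l.Prime → L ≤ l →
      ∀ χ : DirichletCharacter ℂ p, χ ≠ 1 → χ ^ l = 1 →
      ∀ X y : ℕ, (p : ℝ) ^ (1 / 4 + η) ≤ X → (X : ℝ) ≤ Real.sqrt p →
        (∀ q : ℕ, q.Prime → q ≤ y → χ (q : ZMod p) = 1) →
          1 - 1 / (L : ℝ) - δ ≤ badSum p χ y X := by
  obtain ⟨N0, hN0⟩ := bfm_all η δ 1 (fun r => 2 * (r : ℝ)) hη hδ one_pos (fun r => by positivity)
  refine ⟨N0, fun p hp hpp l hl hLl χ hχ1 hχl X y hX hX' hy => ?_⟩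
  have : Fact p.Prime := ⟨hpp⟩
  have : NeZero p := ⟨hpp.ne_zero⟩
  have hpos : (0 : ℝ) < p := by exact_mod_cast hpp.pos
  have hXpos : (0 : ℝ) < X := lt_of_lt_of_le (Real.rpow_pos_of_pos hpos _) hX
  have hXp : X < p := by
    have h1 : Real.sqrt p < p := by
      rw [Real.sqrt_lt' hpos]
      have : (1 : ℝ) < p := by exact_mod_cast hpp.one_lt
      nlinarith
    exact_mod_cast lt_of_le_of_lt hX' h1
  have h2 := vin_l hl.one_lt.le χ hχl y X hXp hy
  have hlF : Fact l.Prime := ⟨hl⟩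
  have ho : orderOf χ = l := orderOf_eq_prime hχl hχ1
  have h3 : ∑ j ∈ Ico 1 l, ‖shortSum p (χ ^ j) X‖ ≤ ∑ j ∈ Ico 1 l, δ * X := by
    refine sum_le_sum fun j hj => ?_
    rw [mem_Ico] at hj
    have hne : χ ^ j ≠ 1 := by
      intro h
      have := orderOf_dvd_of_pow_eq_one h
      rw [ho] at this
      have := Nat.le_of_dvd (by omega) this
      omega
    exact hN0 p hp _ (Pool.Agent.Y165.HN.fam_all p _ hne) X hX hX'
  rw [sum_const, Nat.card_Ico, nsmul_eq_mul, Nat.cast_sub hl.one_lt.le, Nat.cast_one] at h3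
  have h4 : (X : ℝ) * ((l : ℝ) - 1 - l * badSum p χ y X) ≤ X * (((l : ℝ) - 1) * δ) := by
    calc _ ≤ _ := h2
      _ ≤ _ := h3
      _ = _ := by ring
  have h5 := le_of_mul_le_mul_left h4 hXpos
  have hl0 : (0 : ℝ) < l := by exact_mod_cast hl.pos
  have hL0 : (0 : ℝ) < L := by exact_mod_cast (by omega : 0 < L)
  have hLl' : (L : ℝ) ≤ l := by exact_mod_cast hLl
  have h6 : 1 / (l : ℝ) ≤ 1 / L := one_div_le_one_div_of_le hL0 hLl'
  have h7 : (1 - 1 / (l : ℝ)) * (1 - δ) ≤ badSum p χ y X := by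
    have e : (l : ℝ) * ((1 - 1 / (l : ℝ)) * (1 - δ)) = (l - 1) * (1 - δ) := by
      field_simp
    have : (l : ℝ) * ((1 - 1 / (l : ℝ)) * (1 - δ)) ≤ l * badSum p χ y X := by
      rw [e]; linarith
    exact le_of_mul_le_mul_left this hl0
  have h8 : 0 ≤ 1 / (l : ℝ) := by positivity
  have h9 : 0 ≤ δ * (1 / (l : ℝ)) := by positivity
  have h10 : (1 - 1 / (l : ℝ)) * (1 - δ) = 1 - 1 / (l : ℝ) - δ + δ * (1 / l) := by ring
  linarith

/-- the ratio is smaller than `e ^ c` -/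
theorem rho_l (c ε : ℝ) (hc : 0 < c) (hε : 0 < ε) :
    Real.log ((1 / 4 + 2 * (ε / 4)) / (1 / (4 * Real.exp c) + ε)) < c := by
  have hs : 1 < Real.exp c := Real.one_lt_exp_iff.mpr hc
  have hs0 : 0 < Real.exp c := Real.exp_pos _
  rw [Real.log_lt_iff_lt_exp (by positivity), div_lt_iff₀ (by positivity)]
  have e1 : Real.exp c * (1 / (4 * Real.exp c) + ε) =
      1 / 4 + Real.exp c * ε := by
    field_simp
  rw [e1]
  nlinarith [mul_pos (sub_pos.mpr hs) hε]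

theorem burg_l (L : ℕ) (hL : 2 ≤ L) (ε0 : ℝ) (hε0 : 0 < ε0) :
    ∃ N0 : ℕ, ∀ p : ℕ, N0 ≤ p → p.Prime → ∀ l : ℕ, l.Prime → L ≤ l →
      ∀ χ : DirichletCharacter ℂ p, χ ≠ 1 → χ ^ l = 1 →
      ∀ y : ℕ, (∀ q : ℕ, q.Prime → q ≤ y → χ (q : ZMod p) = 1) →
        (y : ℝ) ≤ (p : ℝ) ^ (1 / (4 * Real.exp (1 - 1 / L)) + ε0) := by
  obtain ⟨c, hcdef⟩ : ∃ c : ℝ, c = 1 - 1 / L := ⟨_, rfl⟩
  rw [← hcdef]
  have hc2 : 1 / 2 ≤ c := by
    have hL' : (2 : ℝ) ≤ L := by exact_mod_cast hL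
    have := one_div_le_one_div_of_le (by norm_num) hL'
    rw [hcdef]; linarith
  obtain ⟨ε, hεdef⟩ : ∃ ε, ε = min ε0 (1 / 16) := ⟨_, rfl⟩
  have hε : 0 < ε := by rw [hεdef]; exact lt_min hε0 (by norm_num)
  have hεle : ε ≤ ε0 := by rw [hεdef]; exact min_le_left _ _
  have hε16 : ε ≤ 1 / 16 := by rw [hεdef]; exact min_le_right _ _
  have hrho := rho_l c ε (by linarith) hε
  obtain ⟨b, hb⟩ : ∃ b, b = 1 / (4 * Real.exp c) + ε := ⟨_, rfl⟩
  have hb0 : 0 < b := by rw [hb]; positivity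
  rw [← hb] at hrho
  obtain ⟨γ, hγ⟩ : ∃ γ, γ = c - Real.log ((1 / 4 + 2 * (ε / 4)) / b) := ⟨_, rfl⟩
  have hγ0 : 0 < γ := by rw [hγ]; linarith
  obtain ⟨C, hC0, hC⟩ := Pool.Agent.Helper923.HMertens.mertens_ratio
  obtain ⟨N1, hN1⟩ := bge_l L hL (ε / 4) (min (γ / 3) (1 / 4)) (by positivity)
    (lt_min (by positivity) (by norm_num))
  rw [← hcdef] at hN1
  obtain ⟨L0, hL0⟩ : ∃ L0 : ℝ, Real.log 2 / (ε / 4) ≤ L0 ∧ Real.log 2 / b ≤ L0 ∧
      3 * C / (γ * b) ≤ L0 :=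
    ⟨max (Real.log 2 / (ε / 4)) (max (Real.log 2 / b) (3 * C / (γ * b))), le_max_left _ _,
      (le_max_left _ _).trans (le_max_right _ _), (le_max_right _ _).trans (le_max_right _ _)⟩
  obtain ⟨hL1, hL2, hL3⟩ := hL0
  refine ⟨max N1 (max 1 ⌈Real.exp L0⌉₊), fun N hN hpp l hl hLl χ hχ1 hχl y hy => ?_⟩
  have hNN1 : N1 ≤ N := (le_max_left _ _).trans hN
  have hN1' : 1 ≤ N := ((le_max_left _ _).trans (le_max_right _ _)).trans hN
  have hNexp : Real.exp L0 ≤ N := by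
    have : ⌈Real.exp L0⌉₊ ≤ N := ((le_max_right _ _).trans (le_max_right _ _)).trans hN
    exact (Nat.le_ceil _).trans (by exact_mod_cast this)
  have hNr1 : (1 : ℝ) ≤ N := by exact_mod_cast hN1'
  have hNpos : (0 : ℝ) < N := by linarith
  have hlog : L0 ≤ Real.log N := (Real.le_log_iff_exp_le hNpos).mpr hNexp
  have hlog2 : 0 < Real.log 2 := Real.log_pos (by norm_num)
  have hLpos : 0 < Real.log N := by
    have : 0 < Real.log 2 / b := by positivity
    linarith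
  -- powers of N are at least 2
  have hpow : ∀ t : ℝ, 0 < t → Real.log 2 / t ≤ Real.log N → (2 : ℝ) ≤ (N : ℝ) ^ t := by
    intro t ht hle
    rw [div_le_iff₀ ht] at hle
    rw [Real.rpow_def_of_pos hNpos]
    calc (2 : ℝ) = Real.exp (Real.log 2) := (Real.exp_log (by norm_num)).symm
      _ ≤ Real.exp (Real.log N * t) := Real.exp_le_exp.mpr hle
  by_contra hcon
  push Not at hcon
  have hyb : (N : ℝ) ^ b < y := by
    refine lt_of_le_of_lt ?_ hcon
    exact Real.rpow_le_rpow_of_exponent_le hNr1 (by rw [hb]; linarith)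
  have hy2 : (2 : ℝ) < y := lt_of_le_of_lt (hpow b hb0 (hL2.trans hlog)) hyb
  have hy2' : 2 ≤ y := by
    have : (2 : ℕ) < y := by exact_mod_cast hy2
    omega
  have hypos : (0 : ℝ) < y := by linarith
  have hlogy : b * Real.log N < Real.log y := by
    have := Real.log_lt_log (Real.rpow_pos_of_pos hNpos b) hyb
    rwa [Real.log_rpow hNpos] at this
  -- X
  obtain ⟨X, hXdef⟩ : ∃ X : ℕ, X = ⌈(N : ℝ) ^ (1 / 4 + ε / 4)⌉₊ := ⟨_, rfl⟩
  have hX1 : (N : ℝ) ^ (1 / 4 + ε / 4) ≤ X := by rw [hXdef]; exact Nat.le_ceil _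
  have hXpow : (X : ℝ) ≤ (N : ℝ) ^ (1 / 4 + 2 * (ε / 4)) := by
    have h1 : (X : ℝ) ≤ (N : ℝ) ^ (1 / 4 + ε / 4) + 1 := by
      rw [hXdef]; exact (Nat.ceil_lt_add_one (by positivity)).le
    have h2 : (1 : ℝ) ≤ (N : ℝ) ^ (1 / 4 + ε / 4) := Real.one_le_rpow hNr1 (by positivity)
    have h3 : (2 : ℝ) ≤ (N : ℝ) ^ (ε / 4) := hpow _ (by positivity) (hL1.trans hlog)
    have h4 : (N : ℝ) ^ (1 / 4 + 2 * (ε / 4)) = (N : ℝ) ^ (ε / 4) * (N : ℝ) ^ (1 / 4 + ε / 4) := by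
      rw [← Real.rpow_add hNpos]; congr 1; ring
    rw [h4]
    nlinarith
  have hX2 : (X : ℝ) ≤ Real.sqrt N := by
    rw [Real.sqrt_eq_rpow]
    exact hXpow.trans (Real.rpow_le_rpow_of_exponent_le hNr1 (by linarith))
  have hkey := hN1 N hNN1 hpp l hl hLl χ hχ1 hχl X y hX1 hX2 hy
  have hδ1 : min (γ / 3) (1 / 4) ≤ γ / 3 := min_le_left _ _
  have hδ2 : min (γ / 3) (1 / 4) ≤ 1 / 4 := min_le_right _ _
  have hbs := SNG_badSum_le N χ y X
  rcases le_or_gt X y with hXy | hXy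
  · rw [Finset.Ioc_eq_empty_of_le hXy, Finset.filter_empty, Finset.sum_empty] at hbs
    linarith
  · have hm := hC y X hy2' hXy.le
    have hm2 := (abs_le.mp hm).2
    have hlogypos : 0 < Real.log y := by
      have : 0 < b * Real.log N := by positivity
      linarith
    have hXposN : 0 < X := by omega
    have hXpos : (0 : ℝ) < X := by exact_mod_cast hXposN
    have hlogX : Real.log X ≤ (1 / 4 + 2 * (ε / 4)) * Real.log N := by
      have := Real.log_le_log hXpos hXpow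
      rwa [Real.log_rpow hNpos] at this
    have hlogXpos : 0 < Real.log X := by
      apply Real.log_pos
      have : 1 < X := by omega
      exact_mod_cast this
    have hratio : Real.log X / Real.log y ≤ (1 / 4 + 2 * (ε / 4)) / b := by
      rw [div_le_div_iff₀ hlogypos hb0]
      calc Real.log X * b ≤ ((1 / 4 + 2 * (ε / 4)) * Real.log N) * b := by gcongr
        _ = (1 / 4 + 2 * (ε / 4)) * (b * Real.log N) := by ring
        _ ≤ (1 / 4 + 2 * (ε / 4)) * Real.log y := by gcongr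
    have hlr : Real.log (Real.log X / Real.log y) ≤ c - γ := by
      rw [hγ]
      have := Real.log_le_log (div_pos hlogXpos hlogypos) hratio
      linarith
    have hCy : C / Real.log y ≤ γ / 3 := by
      rw [div_le_iff₀ hlogypos]
      have h5 : 3 * C ≤ Real.log N * (γ * b) := by
        have := hL3.trans hlog
        rwa [div_le_iff₀ (by positivity)] at this
      nlinarith [mul_lt_mul_of_pos_left hlogy hγ0]
    linarith

/-- `l`-th power nonresidues for `l ≥ L` -/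
theorem nonres_l (L : ℕ) (hL : 2 ≤ L) (κ : ℝ) (hκ : 1 / (4 * Real.exp (1 - 1 / L)) < κ)
    (hκ1 : κ < 1) :
    ∃ p₀ : ℕ, ∀ p : ℕ, p₀ ≤ p → p.Prime → ∀ l : ℕ, l.Prime → l ∣ p - 1 → L ≤ l →
      ∃ j : ℕ, 1 ≤ j ∧ (j : ℝ) ≤ (p : ℝ) ^ κ ∧ isRes p l j = false := by
  obtain ⟨κ', hκ'1, hκ'2⟩ := exists_between hκ
  obtain ⟨q0, hq0⟩ := burg_l L hL (κ' - 1 / (4 * Real.exp (1 - 1 / L))) (by linarith)
  have e : 1 / (4 * Real.exp (1 - 1 / L)) + (κ' - 1 / (4 * Real.exp (1 - 1 / L))) = κ' := by ring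
  rw [e] at hq0
  have hκ'0 : 0 < κ' := lt_trans (by positivity) hκ'1
  have hev := Pool.Agent.NH20.BT.ev_pow κ' κ (1 / 3) hκ'2 (by norm_num)
  have tc : Filter.Tendsto (fun q : ℕ => (q : ℝ)) Filter.atTop Filter.atTop :=
    tendsto_natCast_atTop_atTop
  obtain ⟨p₃, hp₃⟩ := Filter.eventually_atTop.1 (tc.eventually hev)
  refine ⟨max (max q0 p₃) 2, fun p hp hpp l hl hd hLl => ?_⟩
  have : Fact p.Prime := ⟨hpp⟩
  have hpr1 : (1 : ℝ) < p := by exact_mod_cast hpp.one_lt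
  have hpos : (0 : ℝ) < p := by linarith
  obtain ⟨χ, hχ1, hχl⟩ := Pool.Agent.NH20.BT.exists_char (p := p) hl hd
  have h3 := hp₃ p (le_trans (le_trans (le_max_right _ _) (le_max_left _ _)) hp)
  have h1κ : (1 : ℝ) ≤ (p : ℝ) ^ κ' := Real.one_le_rpow hpr1.le hκ'0.le
  set y : ℕ := ⌊(p : ℝ) ^ κ⌋₊ with hy
  have hyle : (y : ℝ) ≤ (p : ℝ) ^ κ := Nat.floor_le (by positivity)
  have hylt : (p : ℝ) ^ κ' < y := by
    have := Nat.lt_floor_add_one ((p : ℝ) ^ κ)
    rw [← hy] at this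
    linarith
  have hyp : y < p := by
    have h5 : (p : ℝ) ^ κ < p := by
      calc (p : ℝ) ^ κ < (p : ℝ) ^ (1 : ℝ) := Real.rpow_lt_rpow_of_exponent_lt hpr1 hκ1
        _ = p := Real.rpow_one _
    exact_mod_cast lt_of_le_of_lt hyle h5
  have h4 : ¬ ∀ q : ℕ, q.Prime → q ≤ y → χ (q : ZMod p) = 1 := by
    intro h
    have := hq0 p (le_trans (le_trans (le_max_left _ _) (le_max_left _ _)) hp) hpp l hl hLl χ
      hχ1 hχl y h
    linarith
  push Not at h4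
  obtain ⟨q, hq, hqy, hχq⟩ := h4
  refine ⟨q, hq.pos, le_trans (by exact_mod_cast hqy) hyle,
    Pool.Agent.NH20.BT.nonres_of_char hl hd χ hχl q ?_ hχq⟩
  intro h0
  rw [ZMod.natCast_eq_zero_iff] at h0
  have := Nat.le_of_dvd hq.pos h0
  omega

end Pool.Agent.NH20.BU
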