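import Pool.Agent.NH20.BT.Fin

/-!
# One certified primitive root
-/

set_option autoImplicit false

namespace Pool.Agent.NH20.BU1

open Finset Filter Pool.Agent.NPC Pool.Agent.H595R2.PR Pool.Agent.R562.PR Pool.Agent.NPC.NH20POL
open Pool.Agent.NH20.BT

/-- the test of a candidate -/
def tst (p R : ℕ) (L : List ℕ) (g : ℕ) : Bool :=
  isRes p 1 g && (R :: L).all fun l => (decide (l = 1) || !isRes p l g)

/-- the first candidate which passes the test -/
def fst1 (A C : ℕ) (s : St) : ℕ :=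
  ((fin A C s).filter (tst s.1 s.2.2.1 s.2.2.2.1)).head?.getD 0

theorem poly_fst1 (A C : ℕ) : NPC.Poly (fst1 A C) := by
  have hp : NPC.Poly (fun x : St => x.1) := NPC.Poly.fst NPC.Poly.id
  have hR : NPC.Poly (fun x : St => x.2.2.1) := NPC.Poly.fst (NPC.Poly.snd (NPC.Poly.snd NPC.Poly.id))
  have hL : NPC.Poly (fun x : St => x.2.2.2.1) :=
    NPC.Poly.fst (NPC.Poly.snd (NPC.Poly.snd (NPC.Poly.snd NPC.Poly.id)))
  have hRL : NPC.Poly (fun x : St => x.2.2.1 :: x.2.2.2.1) := NPC.Poly.cons hR hL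
  refine NPC.Poly.head?_getD (l := fun s : St => (fin A C s).filter (tst s.1 s.2.2.1 s.2.2.2.1)) ?_ 0
  refine NPC.Poly.filter (l := fun s : St => fin A C s)
    (p := fun (s : St) (g : ℕ) => tst s.1 s.2.2.1 s.2.2.2.1 g) (poly_fin A C) ?_
  refine NPC.Poly.and (poly_isRes (hp.comp (NPC.Poly.fst NPC.Poly.id)) (NPC.Poly.const 1)
    (NPC.Poly.snd NPC.Poly.id)) ?_
  refine NPC.Poly.all (l := fun q : St × ℕ => q.1.2.2.1 :: q.1.2.2.2.1)
    (p := fun q l => (decide (l = 1) || !isRes q.1.1 l q.2)) (hRL.comp (NPC.Poly.fst NPC.Poly.id)) ?_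
  refine NPC.Poly.or (NPC.Poly.decide_eq (NPC.Poly.snd NPC.Poly.id) (NPC.Poly.const 1))
    (NPC.Poly.not ?_)
  exact poly_isRes (hp.comp (NPC.Poly.fst (NPC.Poly.fst NPC.Poly.id))) (NPC.Poly.snd NPC.Poly.id)
    (NPC.Poly.snd (NPC.Poly.fst NPC.Poly.id))

/-- the raw output -/
def rone (A C : ℕ) (x : List Bool) : List Bool := bits ((unbits St x).elim 0 (fst1 A C))

theorem polyTime_rone (A C : ℕ) : NPC.PolyTime (rone A C) := by
  refine polyTime_bits ?_
  have h := NPC.Poly.optCases (o := fun x : List Bool => unbits St x) (g := fun _ => (0 : ℕ))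
    (h := fun _ s => fst1 A C s) poly_unbits (NPC.Poly.const _)
    ((poly_fst1 A C).comp (NPC.Poly.snd NPC.Poly.id))
  refine h.congr fun x => ?_
  cases unbits St x <;> rfl

theorem rone_bits (A C : ℕ) (s : St) : rone A C (bits s) = bits (fst1 A C s) := by
  unfold rone
  rw [unbits_bits]
  rfl

theorem isRes_iff {p l g : ℕ} (hp : p.Prime) :
    isRes p l g = true ↔ (g : ZMod p) ^ ((p - 1) / l) = 1 := by
  unfold isRes
  rw [decide_eq_true_iff, pw_eq]
  have hmax : max p 1 = p := max_eq_left hp.one_lt.le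
  constructor
  · intro h
    have h4 : ((g ^ ((p - 1) / l) : ℕ) : ZMod p) = ((1 : ℕ) : ZMod p) := by
      rw [ZMod.natCast_eq_natCast_iff]
      unfold md at h
      rw [hmax] at h
      exact h
    push_cast at h4
    exact h4
  · intro h
    have h4 : ((g ^ ((p - 1) / l) : ℕ) : ZMod p) = ((1 : ℕ) : ZMod p) := by
      push_cast
      exact h
    rw [ZMod.natCast_eq_natCast_iff] at h4
    apply md_congr
    rw [hmax]
    exact h4

/-- a primitive root passes the test -/
theorem tst_of_prim {p R g : ℕ} {L : List ℕ} (hp : p.Prime) (hR : R ∣ p - 1)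
    (hL : ∀ l ∈ L, l ∣ p - 1) (hg : IsPrimRoot p g) : tst p R L g = true := by
  have : Fact p.Prime := ⟨hp⟩
  have hp1 : 0 < p - 1 := by have := hp.one_lt; omega
  unfold tst
  rw [Bool.and_eq_true, isRes_iff hp, List.all_eq_true]
  unfold IsPrimRoot at hg
  refine ⟨by rw [Nat.div_one, ← hg]; exact pow_orderOf_eq_one _, fun l hl => ?_⟩
  rw [Bool.or_eq_true, decide_eq_true_iff]
  by_cases h1 : l = 1
  · exact Or.inl h1
  right
  have hd : l ∣ p - 1 := by
    rcases List.mem_cons.1 hl with h | h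
    · rw [h]; exact hR
    · exact hL l h
  by_contra hcon
  have h2 : isRes p l g = true := by
    cases h : isRes p l g
    · rw [h] at hcon; exact absurd rfl hcon
    · rfl
  rw [isRes_iff hp] at h2
  have h3 := orderOf_dvd_of_pow_eq_one h2
  rw [hg] at h3
  have hl0 : 0 < l := Nat.pos_of_dvd_of_pos hd hp1
  have h4 : 0 < (p - 1) / l := Nat.div_pos (Nat.le_of_dvd hp1 hd) hl0
  have h5 := Nat.le_of_dvd h4 h3
  have h6 : (p - 1) / l < p - 1 := Nat.div_lt_self hp1 (by omega)
  omega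

/-- a candidate which passes the test is a primitive root, if the cofactor is `1` or prime -/
theorem prim_of_tst {p R g : ℕ} {L : List ℕ} (hp : p.Prime)
    (hprod : R * L.prod = p - 1) (hprime : ∀ l ∈ L, l.Prime) (hR : R = 1 ∨ R.Prime)
    (h : tst p R L g = true) : IsPrimRoot p g := by
  have : Fact p.Prime := ⟨hp⟩
  have hp1 : 0 < p - 1 := by have := hp.one_lt; omega
  unfold tst at h
  rw [Bool.and_eq_true, isRes_iff hp, List.all_eq_true, Nat.div_one] at h
  obtain ⟨h1, h2⟩ := h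
  unfold IsPrimRoot
  refine orderOf_eq_of_pow_and_pow_div_prime hp1 h1 fun q hq hqd => ?_
  have hmem : q ∈ R :: L := by
    rw [← hprod] at hqd
    rcases (Nat.Prime.dvd_mul hq).1 hqd with h3 | h3
    · rcases hR with h4 | h4
      · rw [h4] at h3
        exact absurd (Nat.eq_one_of_dvd_one h3) hq.one_lt.ne'
      · rw [(Nat.prime_dvd_prime_iff_eq hq h4).1 h3]
        exact List.mem_cons_self
    · obtain ⟨a, ha, hla⟩ := (Prime.dvd_prod_iff hq.prime).1 h3
      rw [(Nat.prime_dvd_prime_iff_eq hq (hprime a ha)).1 hla]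
      exact List.mem_cons_of_mem _ ha
  have h3 := h2 q hmem
  rw [Bool.or_eq_true, decide_eq_true_iff] at h3
  rcases h3 with h3 | h3
  · exact absurd h3 hq.one_lt.ne'
  · intro h4
    rw [(isRes_iff hp).2 h4] at h3
    exact Bool.noConfusion h3

/-- a rough number without two prime factors -/
theorem one_or_prime {R : ℕ} (hR : 1 ≤ R)
    (h : ∀ q₁ q₂ : ℕ, q₁.Prime → q₂.Prime → ¬ q₁ * q₂ ∣ R) : R = 1 ∨ R.Prime := by
  by_cases h1 : R = 1
  · exact Or.inl h1
  right
  have h2 := Nat.minFac_prime h1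
  obtain ⟨m, hm⟩ := Nat.minFac_dvd R
  by_cases hm1 : m = 1
  · rw [hm1, mul_one] at hm
    rw [hm]; exact h2
  · exfalso
    refine h _ _ h2 (Nat.minFac_prime hm1) ?_
    conv_rhs => rw [hm]
    exact Nat.mul_dvd_mul_left _ (Nat.minFac_dvd m)

theorem head_filter {α : Type} (l : List α) (p : α → Bool) (d : α) (h : ∃ a ∈ l, p a = true) :
    p ((l.filter p).head?.getD d) = true := by
  obtain ⟨a, ha, hpa⟩ := h
  have hne : l.filter p ≠ [] := List.ne_nil_of_mem (List.mem_filter.2 ⟨ha, hpa⟩)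
  rw [List.head?_eq_some_head hne, Option.getD_some]
  exact (List.mem_filter.1 (List.head_mem hne)).2

end Pool.Agent.NH20.BU1
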