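import Pool.Agent.NH20.BU.One

/-!
# One certified primitive root: main theorem
-/

set_option autoImplicit false

namespace Pool.Agent.NH20.BU1

open Finset Filter Pool.Agent.NPC Pool.Agent.H595R2.PR Pool.Agent.R562.PR Pool.Agent.NPC.NH20POL
open Pool.Agent.NH20.BT

/-- computation of a number in at most `τ p` rounds of polynomial time, in polynomial space -/
def NumberComputedIn (τ : ℕ → ℝ) (g : ℕ → ℕ) : Prop :=
  ∃ init round out : List Bool → List Bool,
    NPC.PolyTime init ∧ NPC.PolyTime round ∧ NPC.PolyTime out ∧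
    ∃ k p₀ : ℕ, ∀ p : ℕ, p₀ ≤ p → p.Prime →
      (∀ t : ℕ, (round^[t] (init (Nat.bits p))).length ≤ p.size ^ k) ∧
      ∃ t : ℕ, (t : ℝ) ≤ τ p ∧
        round (round^[t] (init (Nat.bits p))) = round^[t] (init (Nat.bits p)) ∧
        out (round^[t] (init (Nat.bits p))) = NPC.bits (g p)

open Classical in
/-- general form: the search bound `Y` -/
theorem general1 (E₀ : ℕ) (hE₀ : 2 ≤ E₀) : ∃ g : ℕ → ℕ,
    ∃ init round out : List Bool → List Bool,
    NPC.PolyTime init ∧ NPC.PolyTime round ∧ NPC.PolyTime out ∧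
    ∃ k p₀ : ℕ, ∀ p : ℕ, p₀ ≤ p → p.Prime → ∀ Y : ℕ, 2 * Y < p →
      (∀ l : ℕ, l.Prime → l ∣ p - 1 → l ^ E₀ ≤ p → ∃ j, 1 ≤ j ∧ j ≤ Y ∧ isRes p l j = false) →
      (∀ t : ℕ, (round^[t] (init (Nat.bits p))).length ≤ p.size ^ k) ∧
      (∃ t : ℕ, (t : ℝ) ≤ (p : ℝ) ^ (1 / E₀ : ℝ) + p.size + Y + 1 ∧
        round (round^[t] (init (Nat.bits p))) = round^[t] (init (Nat.bits p)) ∧
        out (round^[t] (init (Nat.bits p))) = NPC.bits (g p)) ∧
      ((∀ q₁ q₂ : ℕ, q₁.Prime → q₂.Prime → q₁ * q₂ ∣ p - 1 → q₁ ^ E₀ ≤ p ∨ q₂ ^ E₀ ≤ p) →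
        IsPrimRoot p (g p)) := by
  have hE0 : (0 : ℝ) < E₀ := by exact_mod_cast (by omega : 0 < E₀)
  have hE2 : (2 : ℝ) ≤ E₀ := by exact_mod_cast hE₀
  have hinv0 : (0 : ℝ) < 1 / E₀ := by positivity
  have hinv1 : (1 / E₀ : ℝ) < 1 := by
    rw [div_lt_one hE0]
    linarith
  obtain ⟨A₂, hA₂⟩ := Gam_large (1 / E₀) hinv0
  obtain ⟨p₂, hp₂⟩ := hA₂ A₂ le_rfl
  set C := 1 + A₂ + 1 + 2 with hC
  -- eventual inequalities
  have E : ∀ᶠ p : ℕ in atTop, (p : ℝ) ^ (1 / E₀ : ℝ) + 1 + p.size + p / 2 ≤ p := by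
    have h1 : ∀ᶠ x : ℝ in atTop, x ^ (1 / E₀ : ℝ) + 1 + (2 + 2 * Real.log x) + x / 2 ≤ x := by
      have h2 := ev_pow (1 / E₀) 1 (1 / 8) hinv1 (by norm_num)
      have h3 := (isLittleO_log_rpow_atTop (show (0 : ℝ) < 1 by norm_num)).bound
        (show (0 : ℝ) < 1 / 16 by norm_num)
      filter_upwards [h2, h3, eventually_ge_atTop 24] with x h2 h3 hx
      have hx0 : 0 < x := by linarith
      rw [Real.rpow_one] at h2
      rw [Real.norm_of_nonneg (Real.log_nonneg (by linarith)), Real.norm_of_nonneg (by positivity),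
        Real.rpow_one] at h3
      linarith
    have tc : Tendsto (fun q : ℕ => (q : ℝ)) atTop atTop := tendsto_natCast_atTop_atTop
    filter_upwards [tc.eventually h1, eventually_ge_atTop 1] with p hp hp1
    have hsz : (p.size : ℝ) ≤ 2 + 2 * Real.log p := by
      have h4 : 2 ^ (p.size - 1) ≤ p := by
        apply Nat.lt_size.1
        have : 0 < p.size := Nat.size_pos.2 hp1
        omega
      have h5 : ((2 : ℝ)) ^ (p.size - 1) ≤ p := by exact_mod_cast h4
      have h6 := Real.log_le_log (by positivity) h5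
      rw [Real.log_pow] at h6
      have h7 : ((p.size - 1 : ℕ) : ℝ) = (p.size : ℝ) - 1 := by
        rw [Nat.cast_sub (Nat.size_pos.2 hp1), Nat.cast_one]
      rw [h7] at h6
      have h8 := Real.log_two_gt_d9
      have h9 : (1 : ℝ) ≤ p.size := by exact_mod_cast (Nat.size_pos.2 hp1)
      nlinarith
    linarith
  obtain ⟨p₃, hp₃⟩ := eventually_atTop.1 E
  refine ⟨fun p => fst1 A₂ C ((stp E₀)^[p] (ini p)), rini, rstp E₀, rone A₂ C,
    polyTime_rini, polyTime_rstp E₀, polyTime_rone A₂ C, 9, max (max p₂ p₃) 3,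
    fun p hp hpp Y hY hres => ?_⟩
  have : Fact p.Prime := ⟨hpp⟩
  have hp2 : p₂ ≤ p := le_trans (le_trans (le_max_left _ _) (le_max_left _ _)) hp
  have hp3 : p₃ ≤ p := le_trans (le_trans (le_max_right _ _) (le_max_left _ _)) hp
  have hp33 : 3 ≤ p := (le_max_right _ _).trans hp
  have hpos : (0 : ℝ) < p := by exact_mod_cast hpp.pos
  set K : ℕ := ⌊(p : ℝ) ^ (1 / E₀ : ℝ)⌋₊ + 1 with hK
  have hKb : ∀ k : ℕ, (k - 1) ^ E₀ ≤ p → k ≤ K := by
    intro k hk
    have h1 : ((k - 1 : ℕ) : ℝ) ≤ (p : ℝ) ^ (1 / E₀ : ℝ) := by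
      have h2 : (((k - 1 : ℕ) : ℝ)) ^ E₀ ≤ p := by exact_mod_cast hk
      calc ((k - 1 : ℕ) : ℝ) = ((((k - 1 : ℕ) : ℝ)) ^ E₀) ^ (1 / E₀ : ℝ) := by
            rw [← Real.rpow_natCast, ← Real.rpow_mul (Nat.cast_nonneg _), mul_one_div,
              div_self hE0.ne', Real.rpow_one]
        _ ≤ (p : ℝ) ^ (1 / E₀ : ℝ) := Real.rpow_le_rpow (by positivity) h2 hinv0.le
    have h3 := Nat.le_floor h1
    omega
  obtain ⟨hinv, t, ht, hhalt⟩ := run (E := E₀) (Y := Y) hpp hp33 hKb hres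
  have hYp : Y < p := by omega
  have htp : t ≤ p := by
    have h1 := hp₃ p hp3
    have h2 : ((K : ℕ) : ℝ) ≤ (p : ℝ) ^ (1 / E₀ : ℝ) + 1 := by
      rw [hK]
      push_cast
      have := Nat.floor_le (show 0 ≤ (p : ℝ) ^ (1 / E₀ : ℝ) by positivity)
      linarith
    have h3 : (Y : ℝ) ≤ p / 2 := by
      have : (2 : ℝ) * Y < p := by exact_mod_cast hY
      linarith
    have h4 : (t : ℝ) ≤ K + p.size + Y := by exact_mod_cast ht
    have : (t : ℝ) ≤ p := by linarith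
    exact_mod_cast this
  have hsame : (stp E₀)^[p] (ini p) = (stp E₀)^[t] (ini p) := iter_halt hhalt htp
  have hsz2 := two_le_size hpp
  refine ⟨fun u => ?_, ⟨t, ?_, ?_, ?_⟩, ?_⟩
  · rw [iter_bits]
    refine (state_size hpp.two_le (by omega) (hinv u) hYp).trans ?_
    calc 100 * p.size ^ 2 ≤ 2 ^ 7 * p.size ^ 2 := Nat.mul_le_mul_right _ (by norm_num)
      _ ≤ p.size ^ 7 * p.size ^ 2 := Nat.mul_le_mul_right _ (Nat.pow_le_pow_left hsz2 _)
      _ = p.size ^ 9 := by ring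
  · have h2 : ((K : ℕ) : ℝ) ≤ (p : ℝ) ^ (1 / E₀ : ℝ) + 1 := by
      rw [hK]
      push_cast
      have := Nat.floor_le (show 0 ≤ (p : ℝ) ^ (1 / E₀ : ℝ) by positivity)
      linarith
    have h4 : (t : ℝ) ≤ K + p.size + Y := by exact_mod_cast ht
    linarith
  · rw [iter_bits, rstp_bits, stp_halt hhalt]
  · rw [iter_bits, rone_bits]
    show bits (fst1 A₂ C ((stp E₀)^[t] (ini p))) = bits (fst1 A₂ C ((stp E₀)^[p] (ini p)))
    rw [hsame]
  · -- most candidates are primitive roots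
    intro htwo
    have hx := hinv t
    set x := (stp E₀)^[t] (ini p) with hxdef
    have hx1 : x.1 = p := hx.hp
    have e : fin A₂ C ((stp E₀)^[p] (ini p)) =
        candsS C p (withSmall (p.size ^ A₂) x.2.2.2.2.2) := by
      rw [hsame]
      unfold fin
      rw [hx1]
    have hnon : ∀ l : ℕ, l.Prime → l ∣ p - 1 → (l : ℝ) < (p : ℝ) ^ (1 / E₀ : ℝ) →
        HasNonresidue p l x.2.2.2.2.2 := by
      intro l hl hd hlp
      refine halt_has hYp hx hhalt hl hd ?_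
      have h1 : (l : ℝ) ^ E₀ ≤ p := by
        calc (l : ℝ) ^ E₀ ≤ ((p : ℝ) ^ (1 / E₀ : ℝ)) ^ E₀ :=
              pow_le_pow_left₀ (Nat.cast_nonneg _) hlp.le E₀
          _ = p := by
              rw [← Real.rpow_natCast, ← Real.rpow_mul hpos.le, one_div_mul_cancel hE0.ne',
                Real.rpow_one]
      exact_mod_cast h1
    have htop := top_of_nonresidues (Y := p.size ^ A₂) (1 / E₀) (hp₂ p hp2 hpp) hnon
    have hlen : (candsS C p (withSmall (p.size ^ A₂) x.2.2.2.2.2)).length = p.size ^ C :=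
      length_candsS _ _ _
    have h1 := coreS C p hpp (withSmall (p.size ^ A₂) x.2.2.2.2.2)
    rw [length_withSmall] at h1
    have hSlen : x.2.2.2.2.2.length ≤ p.size ^ 1 := by
      have h2 := hx.hlen
      have h3 := length_le_of_prod (fun l hl => (hx.hprime l hl).1) _ hx.hR hx.hprod hpp.one_lt.le
      rw [pow_one]
      omega
    have h2 := fits (n := p.size) (A := 1) (A' := A₂) (B := 1)
      (L := x.2.2.2.2.2.length + p.size ^ A₂) hsz2
      (Nat.add_le_add_right hSlen _) h1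
    -- some candidate is a primitive root
    have hex : ∃ a ∈ candsS C p (withSmall (p.size ^ A₂) x.2.2.2.2.2), IsPrimRoot p a := by
      by_contra hcon
      push Not at hcon
      have hall : #{a ∈ range (p.size ^ C) | ¬ GenS C p (withSmall (p.size ^ A₂) x.2.2.2.2.2) a} =
          p.size ^ C := by
        rw [filter_true_of_mem, card_range]
        intro a ha hg
        rw [genS_iff, htop] at hg
        refine hcon _ ?_ (prim_of_generates hg)
        rw [List.getD_eq_getElem _ _ (by rw [hlen]; exact mem_range.1 ha)]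
        exact List.getElem_mem _
      have h3 : p.size ^ 1 * p.size ^ C ≤ p.size ^ C := by
        calc p.size ^ 1 * p.size ^ C = p.size ^ 1 *
            #{a ∈ range (p.size ^ C) | ¬ GenS C p (withSmall (p.size ^ A₂) x.2.2.2.2.2) a} := by
              rw [hall]
          _ ≤ p.size ^ C := h2
      have h4 : 0 < p.size ^ C := Nat.pow_pos (by omega)
      rw [pow_one] at h3
      nlinarith
    obtain ⟨a, ha, hpa⟩ := hex
    have hRd : x.2.2.1 ∣ p - 1 := by rw [← hx.hprod]; exact Dvd.intro _ rfl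
    have hLd : ∀ l ∈ x.2.2.2.1, l ∣ p - 1 := by
      intro l hl
      rw [← hx.hprod]
      exact Dvd.dvd.mul_left (List.dvd_prod hl) _
    have hRp : x.2.2.1 = 1 ∨ x.2.2.1.Prime := by
      refine one_or_prime hx.hR fun q₁ q₂ hq₁ hq₂ hd => ?_
      have hk : p < x.2.1 ^ E₀ := by
        have := hhalt.1
        rwa [hx1] at this
      have g1 := Nat.pow_le_pow_left (hx.hrough q₁ hq₁ ((Dvd.intro _ rfl).trans hd)) E₀
      have g2 := Nat.pow_le_pow_left (hx.hrough q₂ hq₂ ((Dvd.intro_left _ rfl).trans hd)) E₀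
      rcases htwo q₁ q₂ hq₁ hq₂ (hd.trans hRd) with h | h <;> omega
    have hpass := head_filter (fin A₂ C x) (tst x.1 x.2.2.1 x.2.2.2.1) 0
      ⟨a, by have e2 := e; rw [hsame] at e2; rw [e2]; exact ha, by
        rw [hx1]; exact tst_of_prim hpp hRd hLd hpa⟩
    have hfin : fst1 A₂ C ((stp E₀)^[p] (ini p)) =
        ((fin A₂ C x).filter (tst x.1 x.2.2.1 x.2.2.2.1)).head?.getD 0 := by
      rw [hsame]
      rfl
    show IsPrimRoot p (fst1 A₂ C ((stp E₀)^[p] (ini p)))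
    rw [hfin]
    rw [hx1] at hpass ⊢
    exact prim_of_tst hpp hx.hprod (fun l hl => (hx.hprime l hl).1) hRp hpass

open Classical in
/-- **Main theorem** -/
theorem main (ε : ℝ) (hε : 0 < ε) : ∃ g : ℕ → ℕ,
    NumberComputedIn (fun p => (p : ℝ) ^ (1 / (4 * Real.exp (1 / 2)) + ε)) g ∧
    ∃ p₀ : ℕ, ∀ p : ℕ, p₀ ≤ p → p.Prime →
      (∀ q₁ q₂ : ℕ, q₁.Prime → q₂.Prime → q₁ * q₂ ∣ p - 1 → q₁ ^ 7 ≤ p ∨ q₂ ^ 7 ≤ p) →
      IsPrimRoot p (g p) := by
  obtain ⟨g, init, round, out, h1, h2, h3, k, p₁, hgen⟩ := general1 7 (by norm_num)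
  have e7 : (1 / ((7 : ℕ) : ℝ)) = 1 / 7 := by norm_num
  rw [e7] at hgen
  set ε' : ℝ := min (ε / 2) (1 / 10) with hε'
  have hε'0 : 0 < ε' := lt_min (by positivity) (by norm_num)
  have hε'1 : ε' ≤ ε / 2 := min_le_left _ _
  have hε'2 : ε' ≤ 1 / 10 := min_le_right _ _
  set c : ℝ := 1 / (4 * Real.exp (1 / 2)) with hc
  obtain ⟨e1, e2⟩ := exp_half
  have hc1 : 1 / 7 ≤ c := by
    rw [hc, div_le_div_iff₀ (by norm_num) (by positivity)]
    linarith
  have hc2 : c ≤ 1 / 6 := by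
    rw [hc, div_le_div_iff₀ (by positivity) (by norm_num)]
    linarith
  obtain ⟨p₂, hp₂⟩ := burg_nonres ε' hε'0
  have hev : ∀ᶠ x : ℝ in atTop, 16 ≤ x ∧ 2 * (x ^ (c + ε') + 1) < x ∧
      x ^ (1 / 7 : ℝ) + (2 + 2 * Real.log x) + (x ^ (c + ε') + 1) + 1 ≤ x ^ (c + ε) := by
    have g1 := ev_pow (c + ε') 1 (1 / 4) (by linarith) (by norm_num)
    have g2 := ev_pow (c + ε') (c + ε) (1 / 6) (by linarith) (by norm_num)
    have g3 := (isLittleO_log_rpow_atTop (show (0 : ℝ) < c + ε' by linarith)).bound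
      (show (0 : ℝ) < 1 by norm_num)
    filter_upwards [g1, g2, g3, eventually_ge_atTop 16,
      (tendsto_rpow_atTop (show (0 : ℝ) < c + ε by linarith)).eventually_ge_atTop 24] with
      x g1 g2 g3 hx hx2
    have hx0 : 0 < x := by linarith
    rw [Real.norm_of_nonneg (Real.log_nonneg (by linarith)), Real.norm_of_nonneg (by positivity),
      one_mul] at g3
    rw [Real.rpow_one] at g1
    have g4 : x ^ (1 / 7 : ℝ) ≤ x ^ (c + ε') :=
      Real.rpow_le_rpow_of_exponent_le (by linarith) (by linarith)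
    refine ⟨hx, by linarith, by linarith⟩
  have tc : Tendsto (fun q : ℕ => (q : ℝ)) atTop atTop := tendsto_natCast_atTop_atTop
  obtain ⟨p₃, hp₃⟩ := eventually_atTop.1 (tc.eventually hev)
  -- the hypotheses of the general form
  have key : ∀ p : ℕ, max (max p₁ p₂) p₃ ≤ p → p.Prime → ∃ Y : ℕ, 2 * Y < p ∧
      (∀ l : ℕ, l.Prime → l ∣ p - 1 → l ^ 7 ≤ p → ∃ j, 1 ≤ j ∧ j ≤ Y ∧ isRes p l j = false) ∧
      (p : ℝ) ^ (1 / 7 : ℝ) + p.size + Y + 1 ≤ (p : ℝ) ^ (c + ε) := by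
    intro p hp hpp
    obtain ⟨f1, f2, f3⟩ := hp₃ p ((le_max_right _ _).trans hp)
    have hYge : (p : ℝ) ^ (c + ε') < (⌊(p : ℝ) ^ (c + ε')⌋₊ + 1 : ℕ) := by
      have := Nat.lt_floor_add_one ((p : ℝ) ^ (c + ε'))
      push_cast
      exact this
    have hYle : ((⌊(p : ℝ) ^ (c + ε')⌋₊ + 1 : ℕ) : ℝ) ≤ (p : ℝ) ^ (c + ε') + 1 := by
      have := Nat.floor_le (show 0 ≤ (p : ℝ) ^ (c + ε') by positivity)
      push_cast
      linarith
    have hY2 : 2 * (⌊(p : ℝ) ^ (c + ε')⌋₊ + 1) < p := by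
      have : (2 : ℝ) * ((⌊(p : ℝ) ^ (c + ε')⌋₊ + 1 : ℕ) : ℝ) < p := by linarith
      exact_mod_cast this
    refine ⟨⌊(p : ℝ) ^ (c + ε')⌋₊ + 1, hY2, fun l hl hd _ => ?_, ?_⟩
    · exact hp₂ p (le_trans (le_trans (le_max_right _ _) (le_max_left _ _)) hp) hpp _ hYge
        (by omega) l hl hd
    · have hsz : (p.size : ℝ) ≤ 2 + 2 * Real.log p := by
        have hp1 : 1 ≤ p := hpp.one_lt.le
        have h4 : 2 ^ (p.size - 1) ≤ p := by
          apply Nat.lt_size.1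
          have : 0 < p.size := Nat.size_pos.2 hp1
          omega
        have h5 : ((2 : ℝ)) ^ (p.size - 1) ≤ p := by exact_mod_cast h4
        have h6 := Real.log_le_log (by positivity) h5
        rw [Real.log_pow] at h6
        have h7 : ((p.size - 1 : ℕ) : ℝ) = (p.size : ℝ) - 1 := by
          rw [Nat.cast_sub (Nat.size_pos.2 hp1), Nat.cast_one]
        rw [h7] at h6
        have h8 := Real.log_two_gt_d9
        have h9 : (1 : ℝ) ≤ p.size := by exact_mod_cast (Nat.size_pos.2 hp1)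
        nlinarith
      linarith
  refine ⟨g, ⟨init, round, out, h1, h2, h3, k, max (max p₁ p₂) p₃, fun p hp hpp => ?_⟩,
    max (max p₁ p₂) p₃, fun p hp hpp htwo => ?_⟩
  · obtain ⟨Y, hY1, hY2, hY3⟩ := key p hp hpp
    obtain ⟨g1, ⟨t, g2, g3, g4⟩, -⟩ := hgen p
      (le_trans (le_trans (le_max_left _ _) (le_max_left _ _)) hp) hpp Y hY1 hY2
    exact ⟨g1, t, g2.trans hY3, g3, g4⟩
  · obtain ⟨Y, hY1, hY2, hY3⟩ := key p hp hpp
    exact (hgen p (le_trans (le_trans (le_max_left _ _) (le_max_left _ _)) hp) hpp Y hY1 hY2).2.2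
      htwo

end Pool.Agent.NH20.BU1
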